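import Mathlib

/-!
# A primarily Lindelöf monotonically Sokolov space which is not an `ℝ`-quotient image of a closed
# subset of any `(L_Γ)^ℕ`

The space is `T = ω ∪ {p}`, where `p` is a non-principal ultrafilter on `ω`: the points of `ω` are
isolated and the neighbourhoods of `p` are the sets `{p} ∪ A`, `A ∈ p`, and their supersets.  It is
a countable Tychonoff space, hence monotonically Sokolov (identity retractions, the family of
singletons as outer network) and a continuous image of a countable discrete space.  If `F` is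
closed in `(L_Γ)^ℕ` and `f : F → T` is continuous, then `f` factors through a retraction of `F`
onto a metrizable subspace; since no sequence of points of `ω` converges to `p`, the fibre
`f⁻¹(p)` is open (lemma `isOpen_fibre`), so the discontinuous indicator function `g` of `{p}` has
`g ∘ f` continuous and `f` is not an `ℝ`-quotient map.
-/

open Set Topology Filter

universe u v

namespace Pool.Agent.Results.MP_e3da0c_gt.UltrafilterSpace

/-- The underlying set `Γ ∪ {∞}` of the one-point Lindelöfication of the discrete set `Γ`. -/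
inductive LOne (Γ : Type u) : Type u
  | pt (γ : Γ) : LOne Γ
  | inf : LOne Γ

/-- The topology of `L_Γ`: a set is open iff it does not contain `∞` or its complement is a
countable subset of `Γ`. So the points of `Γ` are isolated, and the neighbourhoods of `∞` are the
sets whose complement is a countable subset of `Γ`. -/
instance (Γ : Type u) : TopologicalSpace (LOne Γ) where
  IsOpen U := LOne.inf ∈ U → Uᶜ.Countable
  isOpen_univ := by simp
  isOpen_inter := by
    intro s t hs ht h
    rw [compl_inter]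
    exact (hs h.1).union (ht h.2)
  isOpen_sUnion := by
    intro S hS h
    obtain ⟨t, ht, hn⟩ := h
    exact (hS t ht hn).mono (compl_subset_compl.2 (subset_sUnion_of_mem ht))

lemma isOpen_LOne_iff {Γ : Type u} {U : Set (LOne Γ)} :
    IsOpen U ↔ (LOne.inf ∈ U → Uᶜ.Countable) := Iff.rfl

/-- `T` is primarily Lindelöf: for some set `Γ`, it is a continuous image of a closed subset of
`(L_Γ)^ℕ` (product topology). -/
def IsPrimarilyLindelof (T : Type v) [TopologicalSpace T] : Prop :=
  ∃ (Γ : Type u) (F : Set (ℕ → LOne Γ)) (f : F → T), IsClosed F ∧ Continuous f ∧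
    Function.Surjective f

/-- `ℝ`-quotient maps: continuous surjections `f : X → Y` such that every `g : Y → ℝ` with
`g ∘ f` continuous is continuous. -/
def IsRQuotientMap {X : Type u} {Y : Type v} [TopologicalSpace X] [TopologicalSpace Y]
    (f : X → Y) : Prop :=
  Continuous f ∧ Function.Surjective f ∧ ∀ g : Y → ℝ, Continuous (g ∘ f) → Continuous g

/-- `[M]^{≤ω}`, the family of countable (including finite) subsets of `M`. -/
abbrev CountableSets (M : Type v) : Type v := {A : Set M // A.Countable}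

/-- `ω`-monotone maps `[M₁]^{≤ω} → [M₂]^{≤ω}`. -/
def IsOmegaMonotone {M₁ : Type u} {M₂ : Type v} (φ : CountableSets M₁ → CountableSets M₂) : Prop :=
  (∀ A B : CountableSets M₁, A.1 ⊆ B.1 → (φ A).1 ⊆ (φ B).1) ∧
  ∀ A : ℕ → CountableSets M₁, (∀ n, (A n).1 ⊆ (A (n + 1)).1) →
    (φ ⟨⋃ n, (A n).1, countable_iUnion fun n => (A n).2⟩).1 = ⋃ n, (φ (A n)).1

/-- The family `𝓕(T)` of nonempty closed subsets of `T`. -/
abbrev NonemptyClosed (T : Type v) [TopologicalSpace T] : Type v :=
  {F : Set T // IsClosed F ∧ F.Nonempty}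

/-- `T` is monotonically Sokolov: to each `𝒜 ∈ [𝓕(T)]^{≤ω}` one can assign a continuous retraction
`r 𝒜 : T → T` with `r 𝒜 (F) ⊆ F` for all `F ∈ 𝒜`, and a countable outer network `N 𝒜` of
`r 𝒜 (T)` in `T`, in such a way that `𝒜 ↦ N 𝒜` is `ω`-monotone. -/
def IsMonotonicallySokolov (T : Type v) [TopologicalSpace T] : Prop :=
  ∃ (r : CountableSets (NonemptyClosed T) → T → T)
    (N : CountableSets (NonemptyClosed T) → CountableSets (Set T)),
    (∀ A, Continuous (r A) ∧ (∀ x, r A (r A x) = r A x) ∧ ∀ F ∈ A.1, r A '' F.1 ⊆ F.1) ∧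
    (∀ A (U : Set T), IsOpen U → ∀ x ∈ U ∩ range (r A), ∃ S ∈ (N A).1, x ∈ S ∧ S ⊆ U) ∧
    IsOmegaMonotone N

/-! ### countable spaces -/

lemma isPrimarilyLindelof_of_countable (T : Type v) [TopologicalSpace T] [Countable T] [Nonempty T] :
    IsPrimarilyLindelof.{u} T := by
  obtain ⟨e, he⟩ := exists_surjective_nat T
  have hc : Countable (LOne (ULift.{u} ℕ)) := by
    have : Function.Surjective (fun o : Option (ULift.{u} ℕ) =>
        (match o with | none => LOne.inf | some n => LOne.pt n : LOne (ULift.{u} ℕ))) := by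
      rintro (n | _)
      · exact ⟨some n, rfl⟩
      · exact ⟨none, rfl⟩
    exact this.countable
  have hdisc : ∀ U : Set (LOne (ULift.{u} ℕ)), IsOpen U := fun U _ => to_countable _
  have : DiscreteTopology (LOne (ULift.{u} ℕ)) := discreteTopology_iff_forall_isOpen.2 hdisc
  let d : LOne (ULift.{u} ℕ) → T := fun o => match o with
    | LOne.inf => e 0
    | LOne.pt n => e n.down
  refine ⟨ULift.{u} ℕ, univ, fun x => d (x.1 0), isClosed_univ, ?_, ?_⟩
  · exact (continuous_of_discreteTopology (f := d)).comp ((continuous_apply 0).comp continuous_subtype_val)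
  · intro t
    obtain ⟨n, rfl⟩ := he t
    exact ⟨⟨fun _ => LOne.pt ⟨n⟩, trivial⟩, rfl⟩

lemma isMonotonicallySokolov_of_countable (T : Type v) [TopologicalSpace T] [Countable T] :
    IsMonotonicallySokolov T := by
  refine ⟨fun _ => id, fun _ => ⟨range (fun x : T => ({x} : Set T)), countable_range _⟩, ?_, ?_, ?_⟩
  · intro A
    exact ⟨continuous_id, fun x => rfl, fun F _ => by simp⟩
  · intro A U _ x hx
    exact ⟨{x}, ⟨x, rfl⟩, mem_singleton x, singleton_subset_iff.2 hx.1⟩
  · refine ⟨fun _ _ _ => subset_rfl, fun A _ => ?_⟩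
    exact (iUnion_const _).symm

/-! ### the ultrafilter space -/

/-- The underlying set of `ω ∪ {p}`. -/
inductive UT : Type
  | pt (n : ℕ) : UT
  | inf : UT

/-- The topology of `ω ∪ {p}`, `p` a non-principal ultrafilter on `ω`. -/
noncomputable instance : TopologicalSpace UT where
  IsOpen U := UT.inf ∈ U → {n : ℕ | UT.pt n ∈ U} ∈ (hyperfilter ℕ : Filter ℕ)
  isOpen_univ := fun _ => by simp
  isOpen_inter := by
    intro s t hs ht h
    exact inter_mem (hs h.1) (ht h.2)
  isOpen_sUnion := by
    intro S hS h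
    obtain ⟨t, ht, hn⟩ := h
    exact mem_of_superset (hS t ht hn) fun n hn' => ⟨t, ht, hn'⟩

lemma isOpen_UT_iff {U : Set UT} : IsOpen U ↔ (UT.inf ∈ U →
    {n : ℕ | UT.pt n ∈ U} ∈ (hyperfilter ℕ : Filter ℕ)) := Iff.rfl

instance : Countable UT := by
  have : Function.Surjective (fun o : Option ℕ =>
      (match o with | none => UT.inf | some n => UT.pt n : UT)) := by
    rintro (n | _)
    · exact ⟨some n, rfl⟩
    · exact ⟨none, rfl⟩
  exact this.countable

instance : Nonempty UT := ⟨UT.inf⟩

lemma isOpen_of_notMem {U : Set UT} (h : UT.inf ∉ U) : IsOpen U := fun h' => absurd h' h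

lemma isClosed_of_mem {U : Set UT} (h : UT.inf ∈ U) : IsClosed U :=
  isOpen_compl_iff.1 (isOpen_of_notMem fun h' => h' h)

lemma isClopen_pt (n : ℕ) : IsClopen ({UT.pt n} : Set UT) := by
  refine ⟨?_, isOpen_of_notMem (by simp)⟩
  rw [← isOpen_compl_iff, isOpen_UT_iff]
  intro _
  have : {m : ℕ | UT.pt m ∈ ({UT.pt n} : Set UT)ᶜ} = {n}ᶜ := by
    ext m
    simp
  rw [this]
  exact (hyperfilter_le_cofinite (α := ℕ)) (by simp)

lemma not_isOpen_inf : ¬ IsOpen ({UT.inf} : Set UT) := by
  intro h
  have h1 := isOpen_UT_iff.1 h (mem_singleton _)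
  have : {m : ℕ | UT.pt m ∈ ({UT.inf} : Set UT)} = ∅ := by
    ext m; simp
  rw [this] at h1
  exact (hyperfilter ℕ).neBot.ne (empty_mem_iff_bot.1 h1)

instance : T35Space UT := by
  have hclopen : ∀ (x : UT) (K : Set UT), IsClosed K → x ∉ K → ∃ V : Set UT, IsClopen V ∧ x ∈ V ∧
      V ⊆ Kᶜ := by
    intro x K hK hx
    rcases x with n | _
    · refine ⟨{UT.pt n}, isClopen_pt n, mem_singleton _, ?_⟩
      intro y hy
      rw [mem_singleton_iff] at hy
      rw [hy]; exact hx
    · exact ⟨Kᶜ, ⟨isClosed_of_mem hx, hK.isOpen_compl⟩, hx, subset_rfl⟩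
  have hT1 : T1Space UT := ⟨fun x => by
    rcases x with n | _
    · exact (isClopen_pt n).1
    · exact isClosed_of_mem (mem_singleton _)⟩
  have hcr : CompletelyRegularSpace UT := ⟨fun x K hK hx => by
    obtain ⟨V, hV, hxV, hVK⟩ := hclopen x K hK hx
    classical
    refine ⟨fun y => if y ∈ V then 0 else 1, ?_, if_pos hxV, fun y hy => if_neg fun h => hVK h hy⟩
    exact (IsLocallyConstant.iff_isOpen_fiber.2 fun t => by
      by_cases h0 : t = 0
      · have : (fun y => if y ∈ V then (0 : unitInterval) else 1) ⁻¹' {t} = V := by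
          ext y; by_cases h : y ∈ V <;> simp [h, h0]
        rw [this]; exact hV.2
      · by_cases h1 : t = 1
        · have : (fun y => if y ∈ V then (0 : unitInterval) else 1) ⁻¹' {t} = Vᶜ := by
            ext y; by_cases h : y ∈ V <;> simp [h, h1]
          rw [this]; exact hV.1.isOpen_compl
        · have : (fun y => if y ∈ V then (0 : unitInterval) else 1) ⁻¹' {t} = ∅ := by
            ext y; by_cases h : y ∈ V <;> simp [h, Ne.symm h0, Ne.symm h1]
          rw [this]; exact isOpen_empty).continuous⟩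
  exact {}

/-- there are no nontrivial convergent sequences: no sequence in ω converges to `p` -/
lemma not_tendsto (s : ℕ → ℕ) : ¬ Tendsto s atTop (hyperfilter ℕ : Filter ℕ) := by
  intro h
  have h1 : Tendsto s atTop atTop := by
    rw [← Nat.cofinite_eq_atTop]
    exact (h.mono_right hyperfilter_le_cofinite).mono_left (by rw [Nat.cofinite_eq_atTop])
  obtain ⟨φ, hφ, hs⟩ := strictMono_subseq_of_tendsto_atTop h1
  let A : Set ℕ := range fun i => s (φ (2 * i))
  have key : ∀ B : Set ℕ, B ∈ (hyperfilter ℕ : Filter ℕ) → ∃ M, ∀ m ≥ M, s m ∈ B := fun B hB =>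
    eventually_atTop.1 (h hB)
  rcases (hyperfilter ℕ).mem_or_compl_mem A with hA | hA
  · obtain ⟨M, hM⟩ := key A hA
    obtain ⟨i, hi⟩ := hM (φ (2 * M + 1)) ((by omega : M ≤ 2 * M + 1).trans (hφ.id_le _))
    have := hs.injective (show (s ∘ φ) (2 * i) = (s ∘ φ) (2 * M + 1) from hi)
    omega
  · obtain ⟨M, hM⟩ := key Aᶜ hA
    exact hM (φ (2 * M)) ((by omega : M ≤ 2 * M).trans (hφ.id_le _)) ⟨M, rfl⟩

/-! ### retractions of `(L_Γ)^ℕ` -/

section retraction
variable {Γ : Type u}

open Classical in
/-- the retraction `L_Γ → A ∪ {∞}` -/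
noncomputable def ret (A : Set Γ) : LOne Γ → LOne Γ
  | LOne.pt γ => if γ ∈ A then LOne.pt γ else LOne.inf
  | LOne.inf => LOne.inf

lemma ret_pt_mem {A : Set Γ} {γ : Γ} (h : γ ∈ A) : ret A (LOne.pt γ) = LOne.pt γ := by
  simp [ret, h]

lemma ret_pt_notMem {A : Set Γ} {γ : Γ} (h : γ ∉ A) : ret A (LOne.pt γ) = LOne.inf := by
  simp [ret, h]

lemma ret_inf {A : Set Γ} : ret A (LOne.inf) = LOne.inf := rfl

/-- a pattern of length `m` and a set `C`: `y` matches if it takes the prescribed values at the
`pt` entries and avoids `C` at the `inf` entries -/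
def Matches {m : ℕ} (s : Fin m → LOne Γ) (C : Set Γ) (y : ℕ → LOne Γ) : Prop :=
  ∀ k : Fin m, (∀ γ, s k = LOne.pt γ → y k = LOne.pt γ) ∧
    (s k = LOne.inf → ∀ γ ∈ C, y k ≠ LOne.pt γ)

open Classical in
/-- the avoiding set attached to a pattern -/
noncomputable def avoid (E : Set (ℕ → LOne Γ)) {m : ℕ} (s : Fin m → LOne Γ) : Set Γ :=
  if h : ∃ C : Set Γ, C.Countable ∧ ∀ y ∈ E, ¬ Matches s C y then h.choose else ∅

lemma avoid_countable (E : Set (ℕ → LOne Γ)) {m : ℕ} (s : Fin m → LOne Γ) :
    (avoid E s).Countable := by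
  unfold avoid
  split_ifs with h
  · exact h.choose_spec.1
  · exact countable_empty

/-- `A` is closed under `avoid` -/
def Closed (A : Set Γ) (E : Set (ℕ → LOne Γ)) : Prop :=
  ∀ (m : ℕ) (s : Fin m → LOne Γ), (∀ k γ, s k = LOne.pt γ → γ ∈ A) → avoid E s ⊆ A

lemma ret_mem_of_closed {A : Set Γ} {E : Set (ℕ → LOne Γ)} (hE : IsClosed E) (hA : Closed A E)
    {x : ℕ → LOne Γ} (hx : x ∈ E) : (fun k => ret A (x k)) ∈ E := by
  by_contra hn
  -- basic neighbourhood of the retracted point missing E
  have hopen : IsOpen Eᶜ := hE.isOpen_compl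
  rw [isOpen_pi_iff] at hopen
  obtain ⟨I, U, hU, hsub⟩ := hopen _ hn
  obtain ⟨m, hm⟩ : ∃ m, ∀ i ∈ I, i < m := ⟨I.sup id + 1, fun i hi => by
    have := Finset.le_sup (f := id) hi
    simp at this; omega⟩
  let s : Fin m → LOne Γ := fun k => ret A (x k)
  let C : Set Γ := ⋃ i ∈ I, {γ | LOne.inf ∈ U i ∧ LOne.pt γ ∉ U i}
  have hC : C.Countable := by
    refine (I.countable_toSet).biUnion fun i hi => ?_
    by_cases h : LOne.inf ∈ U i
    · have h1 := isOpen_LOne_iff.1 (hU i hi).1 h
      refine (h1.preimage_of_injOn (f := LOne.pt) ?_).mono ?_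
      · intro a _ b _ hab
        exact LOne.pt.inj hab
      · intro γ hγ
        exact hγ.2
    · convert countable_empty
      ext γ; simp [h]
  have hav : ∀ y ∈ E, ¬ Matches s C y := by
    intro y hy hmat
    have : y ∈ (I : Set ℕ).pi U := by
      intro i hi
      have hi' : i ∈ I := hi
      have hmem := (hU i hi').2
      obtain ⟨h1, h2⟩ := hmat ⟨i, hm i hi'⟩
      simp only [s] at h1 h2
      rcases hr : ret A (x i) with γ | _
      · rw [h1 γ hr]; rw [hr] at hmem; exact hmem
      · rcases hy' : y i with γ | _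
        · by_contra hγ
          rw [hr] at hmem
          exact h2 hr γ (mem_iUnion₂.2 ⟨i, hi', hmem, hγ⟩) hy'
        · rw [hr] at hmem; exact hmem
    exact hsub this hy
  have hex : ∃ C : Set Γ, C.Countable ∧ ∀ y ∈ E, ¬ Matches s C y := ⟨C, hC, hav⟩
  have hsA : ∀ k γ, s k = LOne.pt γ → γ ∈ A := by
    intro k γ h
    simp only [s] at h
    rcases hx' : x k with δ | _
    · rw [hx'] at h
      by_cases hδ : δ ∈ A
      · rw [ret_pt_mem hδ] at h
        exact LOne.pt.inj h ▸ hδ
      · rw [ret_pt_notMem hδ] at h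
        exact absurd h (by simp)
    · rw [hx', ret_inf] at h
      exact absurd h (by simp)
  have hsub' := hA m s hsA
  have hspec : ∀ y ∈ E, ¬ Matches s (avoid E s) y := by
    unfold avoid
    rw [dif_pos hex]
    exact hex.choose_spec.2
  refine hspec x hx fun k => ⟨fun γ h => ?_, fun h γ hγ hxk => ?_⟩
  · simp only [s] at h
    rcases hx' : x k with δ | _
    · rw [hx'] at h
      by_cases hδ : δ ∈ A
      · rw [ret_pt_mem hδ] at h
        exact h
      · rw [ret_pt_notMem hδ] at h
        exact absurd h (by simp)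
    · rw [hx', ret_inf] at h
      exact absurd h (by simp)
  · simp only [s] at h
    rw [hxk, ret_pt_mem (hsub' hγ)] at h
    exact absurd h (by simp)


/-- one step of the closure process -/
noncomputable def step (E : ℕ → Set (ℕ → LOne Γ)) (A : Set Γ) : Set Γ :=
  A ∪ ⋃ (i : ℕ) (m : ℕ) (s ∈ {s : Fin m → LOne Γ | ∀ k, s k ∈ insert LOne.inf (LOne.pt '' A)}),
    avoid (E i) s

lemma step_countable (E : ℕ → Set (ℕ → LOne Γ)) {A : Set Γ} (hA : A.Countable) :
    (step E A).Countable := by
  refine hA.union (countable_iUnion fun i => countable_iUnion fun m => ?_)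
  refine Set.Countable.biUnion ?_ fun s _ => avoid_countable _ _
  exact countable_pi fun _ => (hA.image _).insert _

lemma exists_closed (E : ℕ → Set (ℕ → LOne Γ)) : ∃ A : Set Γ, A.Countable ∧ ∀ i, Closed A (E i) := by
  let B : ℕ → Set Γ := fun n => (step E)^[n] ∅
  have hB1 : ∀ n, B (n + 1) = step E (B n) := fun n => Function.iterate_succ_apply' _ _ _
  have hBc : ∀ n, (B n).Countable := by
    intro n
    induction n with
    | zero => exact countable_empty
    | succ n ih => rw [hB1]; exact step_countable E ih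
  have hmono : Monotone B := monotone_nat_of_le_succ fun n => by
    rw [hB1]; exact subset_union_left
  refine ⟨⋃ n, B n, countable_iUnion hBc, fun i m s hs => ?_⟩
  -- all entries of the pattern appear at some finite stage
  have h1 : ∀ k : Fin m, ∃ n, s k ∈ insert LOne.inf (LOne.pt '' B n) := by
    intro k
    rcases hk : s k with γ | _
    · obtain ⟨n, hn⟩ := mem_iUnion.1 (hs k γ hk)
      exact ⟨n, Or.inr ⟨γ, hn, rfl⟩⟩
    · exact ⟨0, Or.inl rfl⟩
  choose n hn using h1
  let M := Finset.univ.sup n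
  have hM : ∀ k, s k ∈ insert LOne.inf (LOne.pt '' B M) := fun k =>
    insert_subset_insert (image_mono (hmono (Finset.le_sup (Finset.mem_univ k)))) (hn k)
  intro γ hγ
  refine mem_iUnion.2 ⟨M + 1, ?_⟩
  rw [hB1]
  exact Or.inr (mem_iUnion.2 ⟨i, mem_iUnion.2 ⟨m, mem_iUnion₂.2 ⟨s, hM, hγ⟩⟩⟩)

end retraction

/-- Main lemma: for a continuous map from a closed subset of `(L_Γ)^ℕ` to the ultrafilter space,
the fibre of the non-isolated point is open. -/
lemma isOpen_fibre {Γ : Type u} {F : Set (ℕ → LOne Γ)} (hF : IsClosed F) {f : F → UT}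
    (hf : Continuous f) : IsOpen (f ⁻¹' {UT.inf}) := by
  -- the closed sets to be respected
  let E : ℕ → Set (ℕ → LOne Γ) := fun n => Nat.casesOn n F fun n =>
    if Even n then Subtype.val '' (f ⁻¹' {UT.pt (n / 2)}) else Subtype.val '' (f ⁻¹' {UT.pt (n / 2)})ᶜ
  have hEcl : ∀ i, IsClosed (E i) := by
    intro i
    rcases i with _ | i
    · exact hF
    · by_cases h : Even i
      · have e : E (i + 1) = Subtype.val '' (f ⁻¹' {UT.pt (i / 2)}) := if_pos h
        rw [e]
        exact hF.isClosedEmbedding_subtypeVal.isClosedMap _ ((isClopen_pt _).1.preimage hf)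
      · have e : E (i + 1) = Subtype.val '' (f ⁻¹' {UT.pt (i / 2)})ᶜ := if_neg h
        rw [e]
        exact hF.isClosedEmbedding_subtypeVal.isClosedMap _
          ((isClopen_pt _).2.preimage hf).isClosed_compl
  obtain ⟨A, hA, hcl⟩ := exists_closed E
  have hr : ∀ i, ∀ x ∈ E i, (fun k => ret A (x k)) ∈ E i := fun i x hx =>
    ret_mem_of_closed (hEcl i) (hcl i) hx
  have hrF : ∀ x ∈ F, (fun k => ret A (x k)) ∈ F := hr 0
  have hpt : ∀ (n : ℕ) (x : F), f x = UT.pt n ↔ f ⟨fun k => ret A (x.1 k), hrF _ x.2⟩ = UT.pt n := by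
    intro n x
    have e0 : E (2 * n + 1) = Subtype.val '' (f ⁻¹' {UT.pt n}) := by
      show (if Even (2 * n) then Subtype.val '' (f ⁻¹' {UT.pt (2 * n / 2)}) else _) = _
      rw [if_pos (by simp), Nat.mul_div_cancel_left _ (by norm_num)]
    have e1 : E (2 * n + 1 + 1) = Subtype.val '' (f ⁻¹' {UT.pt n})ᶜ := by
      show (if Even (2 * n + 1) then _ else Subtype.val '' (f ⁻¹' {UT.pt ((2 * n + 1) / 2)})ᶜ) = _
      rw [if_neg (by simp), show (2 * n + 1) / 2 = n by omega]
    constructor
    · intro h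
      have := hr (2 * n + 1) x.1 (by rw [e0]; exact ⟨x, h, rfl⟩)
      rw [e0] at this
      obtain ⟨y, hy, hyx⟩ := this
      have : y = ⟨fun k => ret A (x.1 k), hrF _ x.2⟩ := Subtype.ext hyx
      rw [← this]; exact hy
    · intro h
      by_contra hne
      have := hr (2 * n + 1 + 1) x.1 (by rw [e1]; exact ⟨x, hne, rfl⟩)
      rw [e1] at this
      obtain ⟨y, hy, hyx⟩ := this
      have : y = ⟨fun k => ret A (x.1 k), hrF _ x.2⟩ := Subtype.ext hyx
      rw [this] at hy; exact hy h
  have hfr : ∀ x : F, f x = UT.inf ↔ f ⟨fun k => ret A (x.1 k), hrF _ x.2⟩ = UT.inf := by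
    intro x
    constructor
    · intro h
      rcases h' : f ⟨fun k => ret A (x.1 k), hrF _ x.2⟩ with n | _
      · have := (hpt n x).2 h'
        rw [h] at this; exact absurd this (by simp)
      · rfl
    · intro h
      rcases h' : f x with n | _
      · have := (hpt n x).1 h'
        rw [h] at this; exact absurd this (by simp)
      · rfl
  rw [isOpen_iff_mem_nhds]
  intro x hx
  have hx' : f x = UT.inf := hx
  set z : F := ⟨fun k => ret A (x.1 k), hrF _ x.2⟩ with hz
  have hfz : f z = UT.inf := (hfr x).1 hx'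
  -- near `z`, among retracted points, `f` is constant
  have hm : ∃ m : ℕ, ∀ y : F, (∀ k < m, ret A (y.1 k) = z.1 k) → f y = UT.inf := by
    by_contra hcon
    push Not at hcon
    choose y hy hfy using hcon
    have hret : ∀ a : LOne Γ, ret A (ret A a) = ret A a := by
      rintro (γ | _)
      · by_cases h : γ ∈ A
        · rw [ret_pt_mem h, ret_pt_mem h]
        · rw [ret_pt_notMem h]; rfl
      · rfl
    let w : ℕ → F := fun m => ⟨fun k => ret A ((y m).1 k), hrF _ (y m).2⟩
    have hfw : ∀ m, ∃ n, f (w m) = UT.pt n := by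
      intro m
      rcases h : f (w m) with n | _
      · exact ⟨n, rfl⟩
      · exact absurd ((hfr (y m)).2 h) (hfy m)
    choose s hs using hfw
    have hconv : Tendsto w atTop (𝓝 z) := by
      rw [tendsto_subtype_rng, tendsto_pi_nhds]
      intro k
      refine tendsto_atTop_of_eventually_const (i₀ := k + 1) fun m hkm => ?_
      exact hy m k (by omega)
    have hconv2 : Tendsto (fun m => f (w m)) atTop (𝓝 UT.inf) := by
      rw [← hfz]; exact (hf.tendsto z).comp hconv
    refine not_tendsto s fun U hU => ?_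
    have hop : IsOpen ({UT.inf} ∪ UT.pt '' U : Set UT) := by
      rw [isOpen_UT_iff]
      intro _
      refine mem_of_superset hU fun n hn => Or.inr ⟨n, hn, rfl⟩
    have h3 : {m | f (w m) ∈ ({UT.inf} ∪ UT.pt '' U : Set UT)} ∈ (atTop : Filter ℕ) :=
      hconv2 (hop.mem_nhds (Or.inl rfl))
    show s ⁻¹' U ∈ (atTop : Filter ℕ)
    refine mem_of_superset h3 fun m hm' => ?_
    have hm'' : f (w m) ∈ ({UT.inf} ∪ UT.pt '' U : Set UT) := hm'
    rw [hs m] at hm''
    rcases hm'' with h | ⟨n, hn, h⟩
    · exact absurd h (by simp)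
    · have h4 : n = s m := UT.pt.inj h
      show s m ∈ U
      rw [← h4]; exact hn
  obtain ⟨m, hm⟩ := hm
  have hretopen : ∀ a : LOne Γ, IsOpen {b : LOne Γ | ret A b = ret A a} := by
    intro a
    rw [isOpen_LOne_iff]
    intro hinf
    have hinf' : LOne.inf = ret A a := hinf
    refine (hA.image LOne.pt).mono ?_
    intro b hb
    have hb' : ret A b ≠ ret A a := hb
    rcases b with γ | _
    · by_cases hγ : γ ∈ A
      · exact ⟨γ, hγ, rfl⟩
      · rw [ret_pt_notMem hγ] at hb'
        exact absurd hinf' hb'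
    · exact absurd hinf' hb'
  have hO : IsOpen {y : F | ∀ k < m, ret A (y.1 k) = z.1 k} := by
    have : {y : F | ∀ k < m, ret A (y.1 k) = z.1 k} =
        ⋂ k ∈ Finset.range m, (fun y : F => y.1 k) ⁻¹' {b | ret A b = ret A (x.1 k)} := by
      ext y; simp [z]
    rw [this]
    refine isOpen_biInter_finset fun k _ => ?_
    exact (hretopen _).preimage ((continuous_apply k).comp continuous_subtype_val)
  exact mem_of_superset (hO.mem_nhds (by intro k _; rfl)) fun y hy => hm y hy

/-- **Q1 has a negative answer**: there is a Tychonoff (even countable) space which is primarily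
Lindelöf and monotonically Sokolov but is not an `ℝ`-quotient image of any closed subset of any
`(L_Γ)^ℕ`. -/
theorem result : ∃ (T : Type) (_ : TopologicalSpace T), T35Space T ∧ Countable T ∧
    IsPrimarilyLindelof.{u} T ∧ IsMonotonicallySokolov T ∧
    ¬ ∃ (Γ : Type u) (F : Set (ℕ → LOne Γ)) (f : F → T), IsClosed F ∧ IsRQuotientMap f := by
  refine ⟨UT, inferInstance, inferInstance, inferInstance, isPrimarilyLindelof_of_countable UT,
    isMonotonicallySokolov_of_countable UT, ?_⟩
  rintro ⟨Γ, F, f, hF, hf, -, hq⟩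
  have hopen := isOpen_fibre hF hf
  classical
  let g : UT → ℝ := fun t => if t = UT.inf then 1 else 0
  have hcl : IsClosed (f ⁻¹' {UT.inf}) := (isClosed_of_mem (mem_singleton _)).preimage hf
  have hgf : Continuous (g ∘ f) := by
    refine (IsLocallyConstant.iff_isOpen_fiber.2 fun t => ?_).continuous
    by_cases h1 : t = 1
    · have : (g ∘ f) ⁻¹' {t} = f ⁻¹' {UT.inf} := by
        ext y; by_cases h : f y = UT.inf <;> simp [g, h, h1]
      rw [this]; exact hopen
    · by_cases h0 : t = 0
      · have : (g ∘ f) ⁻¹' {t} = (f ⁻¹' {UT.inf})ᶜ := by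
          ext y; by_cases h : f y = UT.inf <;> simp [g, h, h0]
        rw [this]; exact hcl.isOpen_compl
      · have : (g ∘ f) ⁻¹' {t} = ∅ := by
          ext y; by_cases h : f y = UT.inf <;> simp [g, h, Ne.symm h0, Ne.symm h1]
        rw [this]; exact isOpen_empty
  have hg := hq g hgf
  apply not_isOpen_inf
  have : ({UT.inf} : Set UT) = g ⁻¹' (Ioi (1 / 2)) := by
    ext t
    rcases t with n | _
    · simp [g]
    · simp [g]; norm_num
  rw [this]
  exact isOpen_Ioi.preimage hg

end Pool.Agent.Results.MP_e3da0c_gt.UltrafilterSpace
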